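import Pool.Agent.Y560.TG.Stm

set_option autoImplicit false

/-!
# Project TG: variations of a module in place (FILL, FILI)
-/

namespace Pool.Agent.Y516.TG

open Set
open Pool.Agent.Y560.TG
open Pool.Agent.H899R2.VP (St PIso BF IsoOn idOn inv comp)
open Pool.Agent.H533R2.VO (lift RIso)
open Pool.Agent.H566P (R2 lt ac co mk LA MB)

/-- the structure on the class `c` -/
noncomputable def Mc (P : ℕ → ℕ → Prop) (V W : R2) : Bool → R2
  | true => ex P W
  | false => ex (fun k v => v = k) V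

open Classical in
/-- the class of `x` -/
noncomputable def pi (O : Set ℕ) (x : ℕ) : Bool := decide (x ∈ O)

lemma pi_true {O : Set ℕ} {x : ℕ} : pi O x = true ↔ x ∈ O := by
  simp [pi]

lemma pi_false {O : Set ℕ} {x : ℕ} : pi O x = false ↔ x ∉ O := by
  simp [pi]

lemma pi_ne {O : Set ℕ} {x y : ℕ} (h : pi O x ≠ pi O y) : ¬ (x ∈ O ∧ y ∈ O) := by
  rintro ⟨h1, h2⟩
  exact h (by rw [pi_true.2 h1, pi_true.2 h2])

lemma glue (hGL : S_GL) {R V V' : R2} {O : Set ℕ} {P : ℕ → ℕ → Prop} (hM : Mod O P R)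
    (h1 : Off O R V) (h2 : Off O R V') :
    (∀ o : Ordinal.{0}, BF (lift (ex P V)) (lift (ex P V')) O O o ∅ →
      BF (lift V) (lift V') univ univ o (idOn Oᶜ)) ∧
    (IsoOn (lift (ex P V)) (lift (ex P V')) O O ∅ →
      IsoOn (lift V) (lift V') univ univ (idOn Oᶜ)) := by
  have hac : ∀ W : R2, Off O R W → ∀ n x y, ac W n x y → pi O x = pi O y := by
    intro W hW n x y h
    by_cases hxy : x ∈ O ∧ y ∈ O
    · rw [pi_true.2 hxy.1, pi_true.2 hxy.2]
    · have h3 := hM.1 n x y ((hW.2.1 n x y hxy).1 h)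
      by_cases hx : x ∈ O
      · exact absurd ⟨hx, h3.1 hx⟩ hxy
      · rw [pi_false.2 hx, pi_false.2 (fun hy => hx (h3.2 hy))]
  obtain ⟨g1, g2⟩ := hGL Bool (pi O) V V' (Mc P V V) (Mc P V V')
    (fun x y h => ((h2.1 x y (pi_ne h)).trans (h1.1 x y (pi_ne h)).symm))
    (hac V h1) (hac V' h2)
    (by
      intro c q hq hp
      cases c with
      | true =>
        have hp' : PIso (lift (ex P V)) (lift (ex P V')) q := hp
        rw [piso_ex] at hp'
        refine ⟨hp'.1, fun u hu w hw => ?_⟩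
        have hu1 : u.1 ∈ O := pi_true.1 (hq u hu).1
        have hu2 : u.2 ∈ O := pi_true.1 (hq u hu).2
        have hwO : w ∉ O := fun h => hw (pi_true.2 h)
        have h3 := (hM.2 u.1 hu1 u.2 hu2).1 (fun k => hp'.2 k u hu) w hwO
        have e1 : ∀ z : ℕ, (lt V z w ↔ lt R z w) ∧ (lt V w z ↔ lt R w z) := fun z =>
          ⟨h1.1 z w (fun h => hwO h.2), h1.1 w z (fun h => hwO h.1)⟩
        exact ⟨(e1 u.1).1.trans (h3.1.trans (e1 u.2).1.symm),
          (e1 u.1).2.trans (h3.2.trans (e1 u.2).2.symm)⟩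
      | false =>
        have hp' : PIso (lift (ex (fun k v => v = k) V)) (lift (ex (fun k v => v = k) V)) q := hp
        rw [piso_ex] at hp'
        have heq : ∀ u ∈ q, u.1 = u.2 := fun u hu => ((hp'.2 u.1 u hu).1 rfl).symm
        have hout : ∀ u ∈ q, u.1 ∉ O := fun u hu => pi_false.1 (hq u hu).1
        refine ⟨?_, fun u hu w _ => ?_⟩
        · rw [piso_iff]
          refine ⟨fun u hu v hv => ?_, fun u hu v hv => ?_, fun n u hu v hv => ?_,
            fun n u hu => ?_⟩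
          · rw [heq u hu, heq v hv]
          · have hn : ¬ (u.1 ∈ O ∧ v.1 ∈ O) := fun h => hout u hu h.1
            rw [← heq u hu, ← heq v hv, h1.1 _ _ hn, h2.1 _ _ hn]
          · have hn : ¬ (u.1 ∈ O ∧ v.1 ∈ O) := fun h => hout u hu h.1
            rw [← heq u hu, ← heq v hv, h1.2.1 n _ _ hn, h2.2.1 n _ _ hn]
          · rw [← heq u hu, h1.2.2 n _ (hout u hu), h2.2.2 n _ (hout u hu)]
        · rw [heq u hu]
          exact ⟨Iff.rfl, Iff.rfl⟩)
  have hcl1 : {x | pi O x = true} = O := by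
    ext x
    exact pi_true
  have hcl2 : {x | pi O x = false} = Oᶜ := by
    ext x
    exact pi_false
  have hid : ∀ u ∈ idOn Oᶜ, pi O u.1 = pi O u.2 := by
    rintro ⟨x, y⟩ ⟨h, _⟩
    simp only at h
    rw [h]
  have hs1 : {u : ℕ × ℕ | u ∈ idOn Oᶜ ∧ pi O u.1 = true} = ∅ := by
    ext u
    simp only [mem_ofPred_eq, mem_empty_iff_false, iff_false, not_and]
    rintro ⟨_, h⟩ h'
    exact h (pi_true.1 h')
  have hs2 : {u : ℕ × ℕ | u ∈ idOn Oᶜ ∧ pi O u.1 = false} = idOn Oᶜ := by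
    ext u
    simp only [mem_ofPred_eq, and_iff_left_iff_imp]
    rintro ⟨_, h⟩
    exact pi_false.2 h
  refine ⟨fun o h => g1 o (idOn Oᶜ) hid ?_, fun h => g2 (idOn Oᶜ) hid ?_⟩
  · intro c
    cases c with
    | true =>
      rw [hcl1, hs1]
      exact h
    | false =>
      rw [hcl2, hs2]
      exact BF.refl _ _ _
  · intro c
    cases c with
    | true =>
      rw [hcl1, hs1]
      exact h
    | false =>
      rw [hcl2, hs2]
      exact IsoOn.refl _ _

theorem t_FILI (hGL : S_GL) : S_FILI := by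
  intro R V V' O P hM h1 h2 h
  exact (glue hGL hM h1 h2).2 h

open Classical in
/-- the variation -/
noncomputable def Var (O : Set ℕ) (φ : ℕ → ℕ) (R T : R2) : R2 :=
  mk (fun a b => if a ∈ O ∧ b ∈ O then lt T (φ a) (φ b) else lt R a b)
    (fun n a b => if a ∈ O ∧ b ∈ O then ac T n (φ a) (φ b) else ac R n a b)
    (fun n a => if a ∈ O then co T (2 * n) (φ a) else co R n a)

lemma off_refl (O : Set ℕ) (R : R2) : Off O R R :=
  ⟨fun _ _ _ => Iff.rfl, fun _ _ _ _ => Iff.rfl, fun _ _ _ => Iff.rfl⟩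

lemma off_var (O : Set ℕ) (φ : ℕ → ℕ) (R T : R2) : Off O R (Var O φ R T) := by
  refine ⟨fun x y h => ?_, fun n x y h => ?_, fun n x h => ?_⟩
  · unfold Var
    rw [lt_mk, if_neg h]
  · unfold Var
    rw [ac_mk, if_neg h]
  · unfold Var
    rw [co_mk, if_neg h]

theorem t_FILL (hGL : S_GL) (hM : S_MAT) : S_FILL := by
  intro Γ _ g _ R T O Y P α _ hMod hα hbf
  set mt : ℕ → ℕ → Prop := fun v w => ∀ k, P k v ↔ co T (2 * k + 1) w with hmt
  obtain ⟨m1, m2, m3⟩ := hM (ex P R) T O Y mt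
    (fun v w v' w' a b c k => (a k).trans ((b k).symm.trans (c k)))
    (hbf.mono hα)
    (by
      intro q x y hxy hb k
      have h1 := piso_co hb.piso (n := 2 * k + 1) hxy
      rwa [co_ex_odd] at h1)
  set φ := mat O Y mt with hφ
  have hiso : IsoOn (lift T) (lift (ex P (Var O φ R T))) Y O ∅ := by
    refine ⟨{u | u.2 ∈ O ∧ u.1 = φ u.2}, empty_subset _, ?_, ?_, ?_, ?_⟩
    · rintro ⟨u, v⟩ ⟨h1, h2⟩
      simp only at h1 h2
      exact ⟨by rw [h2]; exact (m1 v h1).1, h1⟩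
    · rw [piso_iff]
      refine ⟨?_, ?_, ?_, ?_⟩
      · rintro ⟨u, u'⟩ ⟨h1, h2⟩ ⟨v, v'⟩ ⟨h3, h4⟩
        simp only at h1 h2 h3 h4 ⊢
        subst h2 h4
        exact ⟨fun h => m2 h1 h3 h, fun h => by rw [h]⟩
      · rintro ⟨u, u'⟩ ⟨h1, h2⟩ ⟨v, v'⟩ ⟨h3, h4⟩
        simp only at h1 h2 h3 h4 ⊢
        subst h2 h4
        rw [lt_ex]
        unfold Var
        rw [lt_mk, if_pos ⟨h1, h3⟩]
      · rintro n ⟨u, u'⟩ ⟨h1, h2⟩ ⟨v, v'⟩ ⟨h3, h4⟩
        simp only at h1 h2 h3 h4 ⊢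
        subst h2 h4
        rw [ac_ex]
        unfold Var
        rw [ac_mk, if_pos ⟨h1, h3⟩]
      · rintro n ⟨u, u'⟩ ⟨h1, h2⟩
        simp only at h1 h2 ⊢
        subst h2
        obtain ⟨k, rfl | rfl⟩ : ∃ k, n = 2 * k ∨ n = 2 * k + 1 := ⟨n / 2, by omega⟩
        · rw [co_ex_even]
          unfold Var
          rw [co_mk, if_pos h1]
        · rw [co_ex_odd]
          exact ((m1 u' h1).2 k).symm
    · intro y hy
      obtain ⟨x, hx, hxy⟩ := m3 y hy
      exact ⟨x, hx, hxy.symm⟩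
    · intro x hx
      exact ⟨φ x, hx, rfl⟩
  have hb2 : BF (lift (ex P R)) (lift (ex P (Var O φ R T))) O O α ∅ :=
    bf_trans0 hbf (hiso.bf α)
  exact ⟨Var O φ R T, off_var O φ R T, (glue hGL hMod (off_refl O R) (off_var O φ R T)).1 α hb2,
    hiso, hb2⟩

end Pool.Agent.Y516.TG
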